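import Pool.Agent.H.MP_4a7072_co.C

namespace Pool.Agent.Results.MP_4a7072_co.Triple345

open Pool.Agent.H.MP_4a7072_co

theorem result (t : ℕ) (ht : 0 < t) : TwoPiece (t * 3) (t * 4) (t * 5) :=
  base345.scale ht

end Pool.Agent.Results.MP_4a7072_co.Triple345
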